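import Pool.Agent.N915.RR.Main

/-!
MP_54ec50_nt: the six congruences for the coefficients of `R(q)^5 / R(q^5)` and of its reciprocal,
where `R(q)` is the Rogers–Ramanujan continued fraction without its factor `q^(1/5)`.
-/

set_option autoImplicit false

namespace Pool.Agent.Results.MP_54ec50_nt.AllCongruences

open Finset PowerSeries

/-- The formal power series `(q^a; q^5)_∞ = ∏_{i ≥ 0} (1 - q^(5 i + a))` for `a ≥ 1`: its coefficient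
of `q^n` is that of the product of the factors `i = 0, …, n` (the later factors do not change it). -/
noncomputable def poch (a : ℕ) : ℤ⟦X⟧ :=
  PowerSeries.mk fun n => coeff n (∏ i ∈ range (n + 1), (1 - (X : ℤ⟦X⟧) ^ (5 * i + a)))

/-- `R(q) = (q; q^5)_∞ (q^4; q^5)_∞ / ((q^2; q^5)_∞ (q^3; q^5)_∞)`. -/
noncomputable def R : ℤ⟦X⟧ := poch 1 * poch 4 * invOfUnit (poch 2 * poch 3) 1

/-- `R(q^5)`. -/
noncomputable def R5 : ℤ⟦X⟧ := R.subst ((X : ℤ⟦X⟧) ^ 5)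

/-- `R(q)^5 / R(q^5) = ∑ C(n) q^n`. -/
noncomputable def Cser : ℤ⟦X⟧ := R ^ 5 * invOfUnit R5 1

/-- `R(q^5) / R(q)^5 = ∑ D(n) q^n`. -/
noncomputable def Dser : ℤ⟦X⟧ := R5 * invOfUnit (R ^ 5) 1

theorem poch_eq (a : ℕ) : poch a = Pool.Agent.N915.RR.qp a 5 := rfl

theorem R_eq : R = Pool.Agent.N915.RR.R := rfl

theorem R5_eq : R5 = Pool.Agent.N915.RR.R5 := by
  rw [R5, R_eq, Pool.Agent.N915.RR.R5, expand_apply]

theorem Cser_eq : Cser = Pool.Agent.N915.RR.Cser := by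
  rw [Cser, R5_eq, R_eq, Pool.Agent.N915.RR.Cser]

theorem Dser_eq : Dser = Pool.Agent.N915.RR.Dser := by
  rw [Dser, R5_eq, R_eq, Pool.Agent.N915.RR.Dser]

/-- All six congruences. -/
theorem result (n : ℕ) :
    ((3 : ℤ) ∣ coeff (27 * n + 18) Cser ∧ (3 : ℤ) ∣ coeff (27 * n + 18) Dser) ∧
    ((4 : ℤ) ∣ coeff (16 * n + 12) Cser ∧ (4 : ℤ) ∣ coeff (16 * n + 12) Dser) ∧
    ((8 : ℤ) ∣ coeff (32 * n + 28) Cser ∧ (8 : ℤ) ∣ coeff (32 * n + 28) Dser) := by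
  rw [Cser_eq, Dser_eq]
  exact ⟨⟨Pool.Agent.N915.RR.threeC' n, Pool.Agent.N915.RR.threeD' n⟩,
    ⟨(Pool.Agent.N915.RR.twoC n).1, (Pool.Agent.N915.RR.twoD n).1⟩,
    ⟨(Pool.Agent.N915.RR.twoC n).2, (Pool.Agent.N915.RR.twoD n).2⟩⟩

end Pool.Agent.Results.MP_54ec50_nt.AllCongruences
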